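import Pool.Agent.W872.SV.Stm

/-! Project SV (owner helper872), part CB: count for given partner rows. -/

set_option autoImplicit false

namespace W521.SV.CBb

open Finset W872.SV

theorem main (cnt : W872.SV.PartCNT) : W872.SV.PartCB := by
  classical
  intro n u e f ε X he hfe
  have hA : (univ.image e : Finset (Fin n)).card = u := by
    rw [Finset.card_image_of_injective _ he, Finset.card_univ, Fintype.card_fin]
  have hD : ((univ.image e : Finset (Fin n)) ×ˢ (univ.image e : Finset (Fin n))ᶜ).card
      = u * (n - u) := by
    rw [Finset.card_product, Finset.card_compl, hA, Fintype.card_fin]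
  have hfA : ∀ s, f s ∉ (univ.image e : Finset (Fin n)) := by
    intro s hs
    rw [Finset.mem_image] at hs
    obtain ⟨t, _, ht⟩ := hs
    exact hfe s t ht.symm
  have key := cnt n
    (univ.filter fun G : SimpleGraph (Fin n) =>
      ∀ s x, ((G.Adj (e s) x ↔ G.Adj (f s) x) ↔ (x ∈ X s ↔ ε s = true)))
    (univ.image e) ((univ.image e) ×ˢ (univ.image e)ᶜ) ?_ ?_
  · rw [hD] at key
    convert key using 2
  · rintro p hp
    rw [Finset.mem_product, Finset.mem_compl] at hp
    exact hp
  · intro G hG G' hG' hag
    rw [Finset.mem_filter] at hG hG'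
    have step : ∀ a b : Fin n, a ∈ (univ.image e : Finset (Fin n)) →
        b ∉ (univ.image e : Finset (Fin n)) → (G.Adj a b ↔ G'.Adj a b) := by
      intro a b ha hb
      rw [Finset.mem_image] at ha
      obtain ⟨s, _, rfl⟩ := ha
      have h1 := hG.2 s b
      have h2 := hG'.2 s b
      have h3 : G.Adj (f s) b ↔ G'.Adj (f s) b := by
        apply hag
        · intro h
          rw [Finset.mem_product] at h
          exact hfA s h.1
        · intro h
          rw [Finset.mem_product] at h
          exact hb h.1
      rw [h3] at h1
      by_cases c : G'.Adj (f s) b <;> by_cases d : (b ∈ X s ↔ ε s = true) <;>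
        simp only [c, d, iff_true, true_iff, iff_false, false_iff, not_not] at h1 h2 <;>
        simp [h1, h2]
    ext a b
    by_cases h1 : (a, b) ∈ (univ.image e : Finset (Fin n)) ×ˢ (univ.image e : Finset (Fin n))ᶜ
    · rw [Finset.mem_product, Finset.mem_compl] at h1
      exact step a b h1.1 h1.2
    · by_cases h2 : (b, a) ∈ (univ.image e : Finset (Fin n)) ×ˢ (univ.image e : Finset (Fin n))ᶜ
      · rw [Finset.mem_product, Finset.mem_compl] at h2
        rw [G.adj_comm, G'.adj_comm]
        exact step b a h2.1 h2.2
      · exact hag a b h1 h2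

end W521.SV.CBb
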